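import Mathlib
import Pool.Agent.Lib.PM42.WordC

namespace Pool.Agent.Results.MP_cf3d36_an.IteratedCompactification

open Cardinal Pool.Agent.Lib.PM42.Word

universe u

/-- There is a positive isomorphism of `C(K)` onto `C(L)`. -/
def PosIso (K L : Type u) [TopologicalSpace K] [TopologicalSpace L] : Prop :=
  ∃ T : C(K, ℝ) ≃L[ℝ] C(L, ℝ), ∀ f, 0 ≤ f → 0 ≤ T f

theorem result (v w : List (Type u)) (hv : ∀ I ∈ v, Infinite I) (hw : ∀ J ∈ w, Infinite J) :
    PosIso (S v) (S w) ↔
      #(S v) = #(S w) ∧ List.SublistForall₂ (fun I J => #I ≤ #J) v w :=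
  main v w hv hw

end Pool.Agent.Results.MP_cf3d36_an.IteratedCompactification
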