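import Mathlib
import Pool.Agent.Lib.PM42.Iso

namespace Pool.Agent.Results.MP_cf3d36_an.MilutinSpaces

open Cardinal

universe u

/-- `K` is a Milutin space: a continuous image of a Cantor cube under a map with a regular
averaging operator. -/
def IsMilutin (K : Type u) [TopologicalSpace K] [CompactSpace K] : Prop :=
  ∃ (τ : Type u) (φ : C(τ → Bool, K)) (A : C(τ → Bool, ℝ) →L[ℝ] C(K, ℝ)),
    Function.Surjective φ ∧ (∀ f, 0 ≤ f → 0 ≤ A f) ∧ ∀ g : C(K, ℝ), A (g.comp φ) = g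

/-- `K` has weight `#ι`, and `#ι` has uncountable cofinality or `K` contains the cube `2^ι`. -/
def Full (ι K : Type u) [TopologicalSpace K] : Prop :=
  IsLeast {c | ∃ B : Set (Set K), TopologicalSpace.IsTopologicalBasis B ∧ #B = c} #ι ∧
    (ℵ₀ < (#ι).ord.cof ∨ ∃ j : C(ι → Bool, K), Function.Injective j)

theorem result (ι K L : Type u) [Uncountable ι]
    [TopologicalSpace K] [CompactSpace K] [T2Space K]
    [TopologicalSpace L] [CompactSpace L] [T2Space L]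
    (hK : IsMilutin K) (hL : IsMilutin L) (h : Full ι K) :
    List.TFAE [Full ι L, Nonempty (C(K, ℝ) ≃L[ℝ] C(L, ℝ)),
      ∃ T : C(K, ℝ) ≃L[ℝ] C(L, ℝ), ∀ f, 0 ≤ f → 0 ≤ T f,
      ∃ T : C(L, ℝ) ≃L[ℝ] C(K, ℝ), ∀ f, 0 ≤ f → 0 ≤ T f] := by
  obtain ⟨τ, φ, A, h1, h2, h3⟩ := hK
  obtain ⟨τ', φ', A', h4, h5, h6⟩ := hL
  exact Pool.Agent.Lib.PM42.posIso_iff_of_milutin φ h1 A h2 h3 φ' h4 A' h5 h6
    (aleph0_lt_mk_iff.2 inferInstance) h.1 h.2

end Pool.Agent.Results.MP_cf3d36_an.MilutinSpaces
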